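import Pool.Agent.MP_1246c0_nt.H12.SpecN

/-! The uniformity lemma. -/

namespace Pool.Agent.MP_1246c0_nt.H12

open Finset

namespace UL

theorem ite_ind (P : Prop) [Decidable P] (a : ℝ) : (if P then a else 0) = ind P * a := by
  unfold ind
  split_ifs <;> simp

theorem ind_pos {P : Prop} (h : P) : ind P = 1 := if_pos h

theorem ind_neg {P : Prop} (h : ¬P) : ind P = 0 := if_neg h

theorem ind_and (P Q : Prop) : ind (P ∧ Q) = ind P * ind Q := by
  by_cases hP : P <;> by_cases hQ : Q <;> simp [ind, hP, hQ]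

theorem abs_ind (P : Prop) : |ind P| ≤ 1 := by
  unfold ind
  split_ifs <;> simp

theorem sg_add (x y : F2) : sg (x + y) = sg x * sg y := by
  have h : ∀ x y : F2, (x + y = 0 ↔ (x = 0 ↔ y = 0)) := by decide
  unfold sg
  by_cases hx : x = 0 <;> by_cases hy : y = 0 <;> simp [h, hx, hy]

theorem abs_sg (x : F2) : |sg x| = 1 := by
  unfold sg
  split_ifs <;> simp

theorem sg_sum {α : Type} (s : Finset α) (f : α → F2) : sg (∑ q ∈ s, f q) = ∏ q ∈ s, sg (f q) := by
  classical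
  induction s using Finset.induction_on with
  | empty => simp [sg]
  | insert a s ha ih => rw [sum_insert ha, prod_insert ha, sg_add, ih]

section Fourier

variable {α : Type} [Fintype α] [DecidableEq α] (K : Finset α)

omit [Fintype α] in
theorem card_Sup : Nat.card (Sup K) = 2 ^ K.card := by
  let e : Sup K ≃ (K → F2) :=
    { toFun := fun h q => h.1 q
      invFun := fun f => ⟨fun q => if h : q ∈ K then f ⟨q, h⟩ else 0, fun q hq => dif_neg hq⟩
      left_inv := fun h => Subtype.ext (funext fun q => by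
        by_cases hq : q ∈ K
        · exact dif_pos hq
        · exact (dif_neg hq).trans (h.2 q hq).symm)
      right_inv := fun f => funext fun q => dif_pos q.2 }
  rw [Nat.card_congr e]
  simp

omit [Fintype α] in
theorem delta {h ρ : α → F2} (hh : h ∈ Sup K) (hρ : ρ ∈ Sup K) :
    ∑ μ ∈ K.powerset, sg (∑ q ∈ μ, h q) * sg (∑ q ∈ μ, ρ q) = 2 ^ K.card * ind (h = ρ) := by
  simp only [sg_sum, ← prod_mul_distrib, ← sg_add]
  rw [← prod_one_add]
  have h2 : ∀ x y : F2, x + y = 0 ↔ x = y := by decide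
  by_cases e : h = ρ
  · subst e
    rw [ind_pos rfl, mul_one, ← prod_const]
    exact prod_congr rfl fun q _ => by rw [sg, if_pos ((h2 _ _).2 rfl)]; norm_num
  · obtain ⟨q, hq⟩ := Function.ne_iff.1 e
    have hK : q ∈ K := by
      by_contra hn
      exact hq ((hh q hn).trans (hρ q hn).symm)
    rw [ind_neg e, mul_zero]
    exact prod_eq_zero hK (by rw [sg, if_neg (mt (h2 _ _).1 hq)]; norm_num)

theorem fourier (A : SAVG) (Φ : (α → F2) → ℝ) (hΦ : ∀ ρ, |Φ ρ| ≤ 1) :
    ∃ c : Finset α → ℝ, (∀ μ, |c μ| ≤ 1) ∧ ∀ ρ ∈ Sup K,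
      Φ ρ - Ex (Sup K) Φ = ∑ μ ∈ K.powerset.erase ∅, c μ * sg (∑ q ∈ μ, ρ q) := by
  refine ⟨fun μ => Ex (Sup K) fun h => Φ h * sg (∑ q ∈ μ, h q), fun μ => ?_, fun ρ hρ => ?_⟩
  · have h1 : ∀ h : α → F2, |Φ h * sg (∑ q ∈ μ, h q)| ≤ 1 := fun h => by
      rw [abs_mul, abs_sg, mul_one]; exact hΦ h
    rw [abs_le]
    constructor
    · rw [← A.const _ (Sup K) (-1)]
      exact A.mono _ _ _ _ fun h _ => (abs_le.1 (h1 h)).1
    · rw [← A.const _ (Sup K) 1]
      exact A.mono _ _ _ _ fun h _ => (abs_le.1 (h1 h)).2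
  · have h0 := add_sum_erase K.powerset
      (fun μ => (Ex (Sup K) fun h => Φ h * sg (∑ q ∈ μ, h q)) * sg (∑ q ∈ μ, ρ q))
      (empty_mem_powerset K)
    have h1 : ∑ μ ∈ K.powerset,
        (Ex (Sup K) fun h => Φ h * sg (∑ q ∈ μ, h q)) * sg (∑ q ∈ μ, ρ q) = Φ ρ := by
      have h2 : ∀ h ∈ Sup K, ∑ μ ∈ K.powerset, sg (∑ q ∈ μ, ρ q) * (Φ h * sg (∑ q ∈ μ, h q)) =
          (Φ ρ * 2 ^ K.card) * ind (AddMonoidHom.id _ h = ρ) := fun h hh => by
        have h3 := congrArg (fun x => Φ h * x) (delta K hh hρ)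
        simp only [mul_sum] at h3
        rw [AddMonoidHom.id_apply, (sum_congr rfl fun μ _ => by ring).trans h3]
        by_cases e : h = ρ
        · rw [e, mul_assoc]
        · rw [ind_neg e]; ring
      simp only [mul_comm _ (sg (∑ q ∈ _, ρ q)), ← A.mul]
      rw [← A.sum, le_antisymm (A.mono _ _ _ _ fun h hh => (h2 h hh).le)
        (A.mono _ _ _ _ fun h hh => (h2 h hh).ge), A.mul, A.fib, AddSubgroup.map_id, ind_pos hρ,
        card_Sup]
      push_cast
      field_simp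
    rw [h1] at h0
    simp only [sum_empty, sg, if_true, mul_one] at h0
    simp only [sg]
    linarith

end Fourier

/-- a function of the first variable plus a function of the second -/
def Sepa (G : ℕ → ℕ → F2) : Prop := ∃ f g : ℕ → F2, ∀ x y, G x y = f x + g y

theorem Sepa.sum {α : Type} (s : Finset α) {G : α → ℕ → ℕ → F2} (h : ∀ q ∈ s, Sepa (G q)) :
    Sepa fun x y => ∑ q ∈ s, G q x y := by
  choose! f g e using h
  exact ⟨fun x => ∑ q ∈ s, f q x, fun y => ∑ q ∈ s, g q y, fun x y => by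
    rw [← sum_add_distrib]; exact sum_congr rfl fun q hq => e q hq x y⟩

theorem restrict {T T' : ℕ} (h : T' ≤ T) (G : ℕ → ℕ → ℝ)
    (h0 : ∀ x y, G x y ≠ 0 → x * y ≤ T' ∧ x ≠ 0 ∧ y ≠ 0) :
    ∑ x ∈ range (T + 1), ∑ y ∈ range (T + 1), G x y =
      ∑ x ∈ range (T' + 1), ∑ y ∈ range (T' + 1), G x y := by
  have hs : range (T' + 1) ⊆ range (T + 1) := range_subset_range.2 (by omega)
  rw [← sum_subset hs fun x _ hx => sum_eq_zero fun y _ => ?_]
  · refine sum_congr rfl fun x _ => (sum_subset hs fun y _ hy => ?_).symm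
    by_contra hn
    obtain ⟨h1, h2, -⟩ := h0 x y hn
    have := Nat.le_mul_of_pos_left y (Nat.pos_of_ne_zero h2)
    exact hy (mem_range.2 (by omega))
  · by_contra hn
    obtain ⟨h1, -, h2⟩ := h0 x y hn
    have := Nat.le_mul_of_pos_right x (Nat.pos_of_ne_zero h2)
    exact hx (mem_range.2 (by omega))

theorem harm (T : ℕ) : ∑ x ∈ range (T + 1), (x : ℝ)⁻¹ ≤ Real.log T + 2 := by
  have h := harmonic_le_one_add_log T
  rw [harmonic] at h
  rw [sum_range_succ']
  push_cast at h ⊢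
  rw [inv_zero]
  linarith

variable {ι : Type} [Fintype ι] [DecidableEq ι]

theorem split (t : ι → Finset ℕ) (i : ι) (F : (ι → ℕ) → ℝ) :
    ∑ p ∈ Fintype.piFinset t, F p = ∑ r ∈ Fintype.piFinset (Function.update t i {1}),
      ∑ x ∈ t i, F (Function.update r i x) := by
  rw [← sum_product']
  refine sum_bij' (fun p _ => (Function.update p i 1, p i)) (fun z _ => Function.update z.1 i z.2)
    (fun p hp => ?_) (fun z hz => ?_) (fun p _ => by simp) (fun z hz => ?_) fun p _ => by simp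
  · rw [Fintype.mem_piFinset] at hp
    refine mem_product.2 ⟨Fintype.mem_piFinset.2 fun l => ?_, hp i⟩
    by_cases e : l = i
    · subst e; simp
    · simpa [e] using hp l
  · obtain ⟨h1, h2⟩ := mem_product.1 hz
    refine Fintype.mem_piFinset.2 fun l => ?_
    by_cases e : l = i
    · subst e; simpa using h2
    · simpa [e] using Fintype.mem_piFinset.1 h1 l
  · have h1 := Fintype.mem_piFinset.1 (mem_product.1 hz).1 i
    simp only [Function.update_self, mem_singleton] at h1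
    simp [← h1]

/-- the tuple with two prescribed coordinates -/
def up (r : ι → ℕ) (i j : ι) (x y : ℕ) : ι → ℕ := Function.update (Function.update r j y) i x

omit [Fintype ι] in
theorem up_i (r : ι → ℕ) (i j : ι) (x y : ℕ) : up r i j x y i = x := by simp [up]

omit [Fintype ι] in
theorem up_j (r : ι → ℕ) {i j : ι} (h : i ≠ j) (x y : ℕ) : up r i j x y j = y := by
  simp [up, h.symm]

omit [Fintype ι] in
theorem up_l (r : ι → ℕ) {i j l : ι} (hi : l ≠ i) (hj : l ≠ j) (x y : ℕ) :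
    up r i j x y l = r l := by simp [up, hi, hj]

theorem prod_two {M : Type} [CommMonoid M] {i j : ι} (h : i ≠ j) (f : ι → M) :
    ∏ l, f l = f i * f j * ∏ l ∈ (univ.erase i).erase j, f l := by
  rw [mul_assoc, mul_prod_erase _ f (mem_erase.2 ⟨h.symm, mem_univ j⟩),
    mul_prod_erase _ f (mem_univ i)]

theorem prod_up {M : Type} [CommMonoid M] {i j : ι} (h : i ≠ j) (f : ι → ℕ → M) (r : ι → ℕ)
    (x y : ℕ) : ∏ l, f l (up r i j x y l) =
      f i x * f j y * ∏ l ∈ (univ.erase i).erase j, f l (r l) := by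
  rw [prod_two h, up_i, up_j r h]
  refine congrArg _ (prod_congr rfl fun l hl => ?_)
  rw [up_l r (mem_erase.1 (mem_erase.1 hl).2).1 (mem_erase.1 hl).1]

omit [Fintype ι] in
theorem inj_up {i j : ι} (h : i ≠ j) (r : ι → ℕ) (x y : ℕ) :
    Function.Injective (up r i j x y) ↔ x ≠ y ∧ (∀ l, l ≠ i → l ≠ j → r l ≠ x) ∧
      (∀ l, l ≠ i → l ≠ j → r l ≠ y) ∧
      ∀ l l', l ≠ i → l ≠ j → l' ≠ i → l' ≠ j → r l = r l' → l = l' := by
  constructor
  · intro H
    refine ⟨fun e => h (H ?_), fun l h1 h2 e => h1 (H ?_), fun l h1 h2 e => h2 (H ?_),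
      fun l l' h1 h2 h3 h4 e => H ?_⟩
    · rw [up_i, up_j r h, e]
    · rw [up_i, up_l r h1 h2, e]
    · rw [up_j r h, up_l r h1 h2, e]
    · rw [up_l r h1 h2, up_l r h3 h4, e]
  · rintro ⟨h0, h1, h2, h3⟩ l l' e
    by_cases a1 : l = i <;> by_cases a2 : l = j <;> by_cases b1 : l' = i <;> by_cases b2 : l' = j <;>
      first
        | exact a1.trans b1.symm
        | exact a2.trans b2.symm
        | exact absurd (a1.symm.trans a2) h
        | exact absurd (b1.symm.trans b2) h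
        | (rw [a1, b2, up_i, up_j r h] at e; exact absurd e h0)
        | (rw [a2, b1, up_i, up_j r h] at e; exact absurd e.symm h0)
        | (rw [a1, up_i, up_l r b1 b2] at e; exact absurd e.symm (h1 _ b1 b2))
        | (rw [a2, up_j r h, up_l r b1 b2] at e; exact absurd e.symm (h2 _ b1 b2))
        | (rw [b1, up_i, up_l r a1 a2] at e; exact absurd e (h1 _ a1 a2))
        | (rw [b2, up_j r h, up_l r a1 a2] at e; exact absurd e (h2 _ a1 a2))
        | (rw [up_l r a1 a2, up_l r b1 b2] at e; exact h3 _ _ a1 a2 b1 b2 e)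

/-- the sum over two coordinates -/
theorem inner {i j : ι} (h : i ≠ j) {w : ι → ℕ → ℝ} {T : ℕ} {δ : ℝ} (hδ : 0 ≤ δ)
    (hw : ∀ i p, |w i p| ≤ 1) (hw0 : ∀ i, w i 0 = 0) {S : ℕ → ℕ → F2}
    (H : ∀ u v : ℕ → ℝ, (∀ p, |u p| ≤ |w i p|) → (∀ p, |v p| ≤ |w j p|) → ∀ T' ≤ T,
      |∑ p ∈ range (T' + 1), ∑ p' ∈ range (T' + 1),
        if p * p' ≤ T' ∧ p ≠ p' then u p * v p' * sg (S p p') else 0| ≤ δ * T')
    (r : ι → ℕ) {f g : ℕ → F2} :
    |∑ y ∈ range (T + 1), ∑ x ∈ range (T + 1),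
      ind (Function.Injective (up r i j x y) ∧ ∏ l, up r i j x y l ≤ T) *
        ((∏ l, w l (up r i j x y l)) * sg (S x y + (f x + g y)))| ≤
      δ * T * ∏ l ∈ (univ.erase i).erase j, (r l : ℝ)⁻¹ := by
  simp only [prod_up h w, prod_up h fun _ x => x, inj_up h]
  by_cases hW : ∏ l ∈ (univ.erase i).erase j, w l (r l) = 0
  · simp only [hW, mul_zero, zero_mul, sum_const_zero, abs_zero]
    positivity
  have hQ : 0 < ∏ l ∈ (univ.erase i).erase j, r l := prod_pos fun l hl =>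
    Nat.pos_of_ne_zero fun e => prod_ne_zero_iff.1 hW l hl (by rw [e, hw0])
  have hW1 : |∏ l ∈ (univ.erase i).erase j, w l (r l)| ≤ 1 := by
    rw [abs_prod]
    exact prod_le_one (fun _ _ => abs_nonneg _) fun l _ => hw _ _
  rw [prod_inv_distrib, ← Nat.cast_prod]
  generalize ∏ l ∈ (univ.erase i).erase j, r l = Q at hQ
  generalize ∏ l ∈ (univ.erase i).erase j, w l (r l) = W at hW1
  generalize (∀ l l', l ≠ i → l ≠ j → l' ≠ i → l' ≠ j → r l = r l' → l = l') = P
  have hb : ∀ (a : ℝ) (R : Prop) (z : F2), |a * (ind R * sg z)| ≤ |a| := fun a R z => by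
    rw [abs_mul, abs_mul, abs_sg, mul_one]
    exact mul_le_of_le_one_right (abs_nonneg _) (abs_ind R)
  have h1 := H (fun x => w i x * (ind (∀ l, l ≠ i → l ≠ j → r l ≠ x) * sg (f x)))
    (fun y => w j y * (ind (∀ l, l ≠ i → l ≠ j → r l ≠ y) * sg (g y))) (fun _ => hb _ _ _)
    (fun _ => hb _ _ _) (T / Q) (Nat.div_le_self _ _)
  rw [← restrict (Nat.div_le_self T Q) _ fun x y hn => ?_] at h1
  · rw [sum_comm]
    have h2 : |W * ind P| ≤ 1 := by
      rw [abs_mul]
      exact mul_le_one₀ hW1 (abs_nonneg _) (abs_ind P)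
    have h3 := (mul_le_mul h2 h1 (abs_nonneg _) zero_le_one).trans
      (mul_le_mul_of_nonneg_left (mul_le_mul_of_nonneg_left Nat.cast_div_le hδ) zero_le_one)
    rw [← abs_mul, one_mul, div_eq_mul_inv, ← mul_assoc, mul_sum] at h3
    refine le_of_eq_of_le (congrArg _ (sum_congr rfl fun x _ => ?_)) h3
    rw [mul_sum]
    refine sum_congr rfl fun y _ => ?_
    rw [ite_ind, Nat.le_div_iff_mul_le hQ]
    simp only [ind_and, sg_add]
    ring
  · by_cases hc : x * y ≤ T / Q ∧ x ≠ y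
    · rw [if_pos hc] at hn
      refine ⟨hc.1, ?_, ?_⟩ <;> rintro rfl <;> simp [hw0] at hn
    · exact absurd (if_neg hc) hn

/-- the estimate for one character -/
theorem one {κ : Type} [Fintype κ] [DecidableEq κ] {μ : Finset (ι × ι × κ)}
    {b : ι → ι → ℕ → ℕ → κ → F2} {w : ι → ℕ → ℝ} {T : ℕ} {δ : ℝ} (hδ : 0 ≤ δ)
    (hw : ∀ i p, |w i p| ≤ 1) (hw0 : ∀ i, w i 0 = 0) {i j : ι} (h : i ≠ j)
    (hμ : ∀ k, (j, i, k) ∉ μ)
    (H : ∀ u v : ℕ → ℝ, (∀ p, |u p| ≤ |w i p|) → (∀ p, |v p| ≤ |w j p|) → ∀ T' ≤ T,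
      |∑ p ∈ range (T' + 1), ∑ p' ∈ range (T' + 1), if p * p' ≤ T' ∧ p ≠ p' then
        u p * v p' * sg (∑ k ∈ univ.filter fun k => (i, j, k) ∈ μ, b i j p p' k) else 0| ≤ δ * T') :
    |TS0 T w fun p => sg (∑ q ∈ μ, b q.1 q.2.1 (p q.1) (p q.2.1) q.2.2)| ≤
      δ * T * (Real.log T + 2) ^ Fintype.card ι := by
  have key : ∀ r : ι → ℕ, ∃ f g : ℕ → F2, ∀ x y,
      ∑ q ∈ μ, b q.1 q.2.1 (up r i j x y q.1) (up r i j x y q.2.1) q.2.2 =
        ∑ k ∈ univ.filter fun k => (i, j, k) ∈ μ, b i j x y k + (f x + g y) := by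
    intro r
    obtain ⟨f, g, e⟩ := Sepa.sum (μ.filter fun q => ¬(q.1 = i ∧ q.2.1 = j))
      (G := fun q x y => b q.1 q.2.1 (up r i j x y q.1) (up r i j x y q.2.1) q.2.2) (by
      rintro ⟨l, l', k⟩ hq
      obtain ⟨h1, h2⟩ := mem_filter.1 hq
      by_cases a : l ≠ j ∧ l' ≠ j
      · refine ⟨fun x => b l l' (up r i j x 0 l) (up r i j x 0 l') k, 0, fun x y => ?_⟩
        simp [up, Function.update_apply, a.1, a.2]
      · have a1 : l ≠ i := by
          rintro rfl
          exact a ⟨h, fun e => h2 ⟨rfl, e⟩⟩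
        have a2 : l' ≠ i := by
          rintro rfl
          exact a ⟨fun e => hμ k (e ▸ h1), h⟩
        refine ⟨0, fun y => b l l' (up r i j 0 y l) (up r i j 0 y l') k, fun x y => ?_⟩
        simp [up, a1, a2])
    refine ⟨f, g, fun x y => ?_⟩
    rw [← e, ← sum_filter_add_sum_filter_not μ fun q => q.1 = i ∧ q.2.1 = j]
    refine congrArg (· + _) (sum_bij (fun k _ => (i, j, k)) ?_ ?_ ?_ ?_).symm
    · exact fun k hk => mem_filter.2 ⟨(mem_filter.1 hk).2, rfl, rfl⟩
    · exact fun k _ k' _ e => congrArg (fun q => q.2.2) e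
    · rintro ⟨l, l', k⟩ hq
      obtain ⟨h1, rfl, rfl⟩ := mem_filter.1 hq
      exact ⟨k, mem_filter.2 ⟨mem_univ _, h1⟩, rfl⟩
    · intro k _
      rw [up_i, up_j r h]
  choose f g e using key
  unfold TS0
  rw [split _ i, split _ j, Function.update_of_ne h.symm]
  refine (abs_sum_le_sum_abs _ _).trans ((sum_le_sum (g := fun r => δ * T * ∏ l, (r l : ℝ)⁻¹)
    fun r hr => ?_).trans ?_)
  · have h1 := Fintype.mem_piFinset.1 hr i
    have h2 := Fintype.mem_piFinset.1 hr j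
    rw [Function.update_of_ne h, Function.update_self, mem_singleton] at h1
    rw [Function.update_self, mem_singleton] at h2
    rw [prod_two h, h1, h2, Nat.cast_one, inv_one, one_mul, one_mul]
    refine le_of_eq_of_le (congrArg _ (sum_congr rfl fun y _ => sum_congr rfl fun x _ => ?_))
      (inner h hδ hw hw0 H r (f := f r) (g := g r))
    rw [ite_ind, ← e]
    rfl
  · rw [← mul_sum, ← prod_univ_sum _ fun _ (x : ℕ) => (x : ℝ)⁻¹, ← card_univ, ← prod_const]
    refine mul_le_mul_of_nonneg_left (prod_le_prod (fun l _ => by positivity) fun l _ => ?_)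
      (by positivity)
    have h0 := Real.log_natCast_nonneg T
    simp only [Function.update_apply]
    split_ifs
    · simp only [sum_singleton, Nat.cast_one, inv_one]; linarith
    · simp only [sum_singleton, Nat.cast_one, inv_one]; linarith
    · exact harm T

theorem TS0_sum {α : Type} (s : Finset α) (c : α → ℝ) (T : ℕ) (w : ι → ℕ → ℝ)
    (Ψ : α → (ι → ℕ) → ℝ) :
    (TS0 T w fun p => ∑ μ ∈ s, c μ * Ψ μ p) = ∑ μ ∈ s, c μ * TS0 T w (Ψ μ) := by
  unfold TS0
  simp only [ite_ind, mul_sum]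
  rw [sum_comm]
  exact sum_congr rfl fun μ _ => sum_congr rfl fun p _ => by ring

end UL

theorem rowUL : OfUL := by
  intro A ι κ _ _ _ _ K b w T δ Φ hδ hw hw0 hΦ hK H
  obtain ⟨c, hc, e⟩ := UL.fourier K A Φ hΦ
  have h0 := Real.log_natCast_nonneg T
  have e1 : (fun p => Φ (rho K b p) - Ex (Sup K) Φ) = fun p => ∑ μ ∈ K.powerset.erase ∅,
      c μ * sg (∑ q ∈ μ, b q.1 q.2.1 (p q.1) (p q.2.1) q.2.2) := funext fun p => by
    rw [e (rho K b p) fun q hq => if_neg hq]
    refine sum_congr rfl fun μ hμ => congrArg (fun z => c μ * sg z) (sum_congr rfl fun q hq => ?_)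
    exact if_pos (mem_powerset.1 (mem_erase.1 hμ).2 hq)
  rw [e1, UL.TS0_sum]
  refine (abs_sum_le_sum_abs _ _).trans ((sum_le_card_nsmul _ _
    (δ * T * (Real.log T + 2) ^ Fintype.card ι) fun μ hμ => ?_).trans ?_)
  · obtain ⟨h1, h2⟩ := mem_erase.1 hμ
    obtain ⟨⟨i, j, k⟩, hq⟩ := nonempty_iff_ne_empty.2 h1
    have h3 := mem_powerset.1 h2
    obtain ⟨h4, h5⟩ := hK i j k (h3 hq)
    rw [abs_mul]
    exact (mul_le_of_le_one_left (abs_nonneg _) (hc μ)).trans
      (UL.one hδ hw hw0 h4 (fun k' hk => h5 k' (h3 hk))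
        (H i j _ ⟨k, mem_filter.2 ⟨mem_univ _, hq⟩⟩ fun k' hk => h3 (mem_filter.1 hk).2))
  · rw [nsmul_eq_mul, mul_assoc (2 ^ K.card), mul_assoc (2 ^ K.card)]
    refine mul_le_mul_of_nonneg_right ?_ (by positivity)
    have := card_erase_le (s := K.powerset) (a := ∅)
    rw [card_powerset] at this
    exact_mod_cast this

end Pool.Agent.MP_1246c0_nt.H12
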