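import Pool.Agent.MP_1246c0_nt.H12.SpecA

/-! The law of reciprocity over the rationals. -/

namespace Pool.Agent.MP_1246c0_nt.H12

open NumberField IsDedekindDomain Finset Pool.Agent.MP_db5b97_nt.H85

namespace RC

/-- induction over nonzero integers -/
theorem ind (P : ℤ → Prop) (hm : ∀ a b, a ≠ 0 → b ≠ 0 → P a → P b → P (a * b)) (h1 : P (-1))
    (hp : ∀ p : ℕ, p.Prime → P p) (n : ℤ) (hn : n ≠ 0) : P n := by
  have h0 : P 1 := by simpa using hm (-1) (-1) (by norm_num) (by norm_num) h1 h1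
  refine UniqueFactorizationMonoid.induction_on_prime (P := fun n => n ≠ 0 → P n) n
    (fun h => absurd rfl h) (fun x hx _ => ?_) (fun a p ha hp' ih _ => ?_) hn
  · rcases Int.isUnit_iff.1 hx with rfl | rfl
    exacts [h0, h1]
  · refine hm _ _ hp'.ne_zero ha ?_ (ih ha)
    have h2 := hp _ (Int.prime_iff_natAbs_prime.1 hp')
    rcases Int.natAbs_eq p with e | e
    · rwa [e]
    · rw [e, neg_eq_neg_one_mul]
      exact hm _ _ (by norm_num) (by simpa using hp'.ne_zero) h1 h2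

/-- induction over odd integers -/
theorem indo (P : ℤ → Prop) (hm : ∀ a b, a % 2 = 1 → b % 2 = 1 → P a → P b → P (a * b))
    (h1 : P (-1)) (hp : ∀ p : ℕ, Gd 0 p → P p) (n : ℤ) (hn : n % 2 = 1) : P n := by
  refine ind (fun n => n % 2 = 1 → P n) (fun a b _ _ ha hb h => ?_) (fun _ => h1)
    (fun p hp' h => hp p ⟨hp', by omega, Nat.zero_le _⟩) n (by omega) hn
  obtain ⟨k1, k2⟩ := Int.odd_mul.1 (Int.odd_iff.2 h)
  rw [Int.odd_iff] at k1 k2
  exact hm a b k1 k2 (ha k1) (hb k2)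

/-- the class modulo four -/
def e4 (x : ℤ) : F2 := if x % 4 = 3 then 1 else 0

/-- the class modulo eight -/
def e8 (x : ℤ) : F2 := if x % 8 = 3 ∨ x % 8 = 5 then 1 else 0

theorem e4_mul {a b : ℤ} (ha : a % 2 = 1) (hb : b % 2 = 1) : e4 (a * b) = e4 a + e4 b := by
  have h1 : a % 4 = 1 ∨ a % 4 = 3 := by omega
  have h2 : b % 4 = 1 ∨ b % 4 = 3 := by omega
  unfold e4
  rw [Int.mul_emod]
  rcases h1 with h1 | h1 <;> rcases h2 with h2 | h2 <;> rw [h1, h2] <;> decide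

theorem e8_mul {a b : ℤ} (ha : a % 2 = 1) (hb : b % 2 = 1) : e8 (a * b) = e8 a + e8 b := by
  have h1 : a % 8 = 1 ∨ a % 8 = 3 ∨ a % 8 = 5 ∨ a % 8 = 7 := by omega
  have h2 : b % 8 = 1 ∨ b % 8 = 3 ∨ b % 8 = 5 ∨ b % 8 = 7 := by omega
  unfold e8
  rw [Int.mul_emod]
  rcases h1 with h1 | h1 | h1 | h1 <;> rcases h2 with h2 | h2 | h2 | h2 <;> rw [h1, h2] <;> decide

theorem e4_nat (p : ℕ) : e4 p = eps p := by
  unfold e4 eps
  exact if_congr (by omega) rfl rfl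

theorem qr_two {p : ℕ} (hp : Gd 0 p) : qr (2 : ZMod p) = e8 p := by
  have := Fact.mk hp.1
  have h := ZMod.exists_sq_eq_two_iff hp.2.1
  have h2 := hp.1.eq_two_or_odd.resolve_left hp.2.1
  unfold qr e8
  by_cases h1 : IsSquare (2 : ZMod p)
  · rw [if_pos h1, if_neg]
    have := h.1 h1
    omega
  · rw [if_neg h1, if_pos]
    have := mt h.2 h1
    omega

theorem f2_add (x : F2) : x + x = 0 := by revert x; decide

theorem f2_eq {x y : F2} (h : x + y = 0) : x = y := by revert x y; decide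

theorem f2_mul (x : F2) : x * x = x := by revert x; decide

variable {F : Type} [Field F] [NumberField F]

variable (F) in
/-- an integer as an element of the multiplicative group -/
noncomputable def zi (n : ℤ) : Un F :=
  if h : n = 0 then 0 else Un.mk (n : F) (Int.cast_ne_zero.2 h)

theorem val_zi {n : ℤ} (h : n ≠ 0) : (zi F n).val = n := by rw [zi, dif_neg h, Un.val_mk]

theorem zi_mul {a b : ℤ} (ha : a ≠ 0) (hb : b ≠ 0) : zi F (a * b) = zi F a + zi F b :=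
  Un.ext (by rw [Un.val_add, val_zi ha, val_zi hb, val_zi (mul_ne_zero ha hb), Int.cast_mul])

theorem val_int {n : ℤ} {w : Sp F} (hw : (n : 𝓞 F) ∉ w.asIdeal) : w.valuation F (n : F) = 1 := by
  simpa using (val_eq_one_iff w n).2 hw

theorem ord_zi {n : ℤ} (h : n ≠ 0) {w : Sp F} (hw : (n : 𝓞 F) ∉ w.asIdeal) :
    ord w (zi F n) = 0 := by
  rw [ord_eq_zero_iff, val_zi h, val_int hw]

theorem qv_one (w : Sp F) : qv w 1 = 0 := by
  unfold qv
  exact if_pos ⟨1, by simp⟩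

theorem t00 {w : Sp F} {a b : Un F} (ha : ord w a = 0) (hb : ord w b = 0) : tame w a b = 0 := by
  simp [tame, ha, hb, qv_one]

theorem t01 {w : Sp F} {a b : Un F} (ha : ord w a = 0) (hb : ord w b = 1) :
    tame w a b = qv w a.val := by
  simp [tame, ha, hb]

theorem t10 (A : SRA) {w : Pr F 2} {a b : Un F} (ha : ord w.1 a = 1) (hb : ord w.1 b = 0) :
    tame w.1 a b = qv w.1 b.val := by
  have h1 := (ord_eq_zero_iff _ _).1 hb
  have h2 := A.qmul F w b.val⁻¹ b.val (by rw [map_inv₀, h1, inv_one]) h1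
  rw [inv_mul_cancel₀ b.val_ne, qv_one] at h2
  rw [← f2_eq h2.symm]
  simp [tame, ha, hb]

theorem surj (h : Module.finrank ℚ F = 1) (x : 𝓞 F) : ∃ n : ℤ, x = n := by
  obtain ⟨n, hn⟩ := (Algebra.finrank_eq_one_iff_bijective_algebraMap.1
    ((RingOfIntegers.rank F).trans h)).2 x
  exact ⟨n, by simpa using hn.symm⟩

theorem prime_at (h : Module.finrank ℚ F = 1) {p : ℕ} (hp : p.Prime) :
    ∃ (w : Sp F) (ψ : 𝓞 F →+* ZMod p), w.asIdeal = RingHom.ker ψ ∧ ord w (zi F p) = 1 ∧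
      ∀ v : Sp F, ((p : ℤ) : 𝓞 F) ∈ v.asIdeal → v = w := by
  have := Fact.mk hp
  let e : ℤ ≃+* 𝓞 F := RingEquiv.ofBijective (algebraMap ℤ (𝓞 F))
    (Algebra.finrank_eq_one_iff_bijective_algebraMap.1 ((RingOfIntegers.rank F).trans h))
  let ψ : 𝓞 F →+* ZMod p := (Int.castRingHom (ZMod p)).comp e.symm.toRingHom
  have hp0 : ((p : ℤ) : 𝓞 F) ≠ 0 := by exact_mod_cast hp.ne_zero
  have hk : RingHom.ker ψ = Ideal.span {((p : ℤ) : 𝓞 F)} := by
    ext x
    obtain ⟨n, rfl⟩ := surj h x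
    rw [RingHom.mem_ker, map_intCast, ZMod.intCast_zmod_eq_zero_iff_dvd, Ideal.mem_span_singleton]
    refine ⟨fun h => Int.cast_dvd_cast _ _ h, fun ⟨y, hy⟩ => ?_⟩
    obtain ⟨m, rfl⟩ := surj h y
    exact ⟨m, by exact_mod_cast hy⟩
  have hne : RingHom.ker ψ ≠ ⊥ := by rw [hk]; simpa using hp.ne_zero
  let w : Sp F := ⟨RingHom.ker ψ, RingHom.ker_isPrime ψ, hne⟩
  refine ⟨w, ψ, rfl, ?_, fun v hv => ?_⟩
  · have e1 : w.valuation F (zi F p).val = WithZero.exp (-1 : ℤ) := by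
      rw [val_zi (by exact_mod_cast hp.ne_zero), ← w.intValuation_singleton hp0 hk, ← val_coe]
      simp
    rw [ord_apply, e1, WithZero.log_exp, neg_neg]
  · refine HeightOneSpectrum.ext (w.isMaximal.eq_of_le v.isPrime.ne_top ?_).symm
    show RingHom.ker ψ ≤ _
    rw [hk]
    exact (Ideal.span_singleton_le_iff_mem _).2 hv

open Classical in
theorem real (h : Module.finrank ℚ F = 1) {x y : ℤ} (hx : x ≠ 0) (hy : y ≠ 0) :
    (∑ᶠ ρ : F →+* ℝ, if ρ (zi F x).val < 0 ∧ ρ (zi F y).val < 0 then (1 : F2) else 0) =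
      if x < 0 ∧ y < 0 then 1 else 0 := by
  let e : ℚ ≃+* F := RingEquiv.ofBijective (algebraMap ℚ F)
    (Algebra.finrank_eq_one_iff_bijective_algebraMap.1 h)
  let ρ₀ : F →+* ℝ := (Rat.castHom ℝ).comp e.symm.toRingHom
  have hu : ∀ ρ : F →+* ℝ, ρ = ρ₀ := fun ρ => by
    ext z
    obtain ⟨q, rfl⟩ := e.surjective z
    exact RingHom.congr_fun (Subsingleton.elim (ρ.comp e.toRingHom) (ρ₀.comp e.toRingHom)) q
  rw [finsum_eq_single _ ρ₀ fun ρ hρ => absurd (hu ρ) hρ, val_zi hx, val_zi hy, map_intCast,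
    map_intCast]
  exact if_congr (by simp) rfl rfl

omit [NumberField F] in
theorem not_both {v : Sp F} {x y : ℤ} (h : IsCoprime x y) (hx : (x : 𝓞 F) ∈ v.asIdeal) :
    (y : 𝓞 F) ∉ v.asIdeal := fun hy => v.isPrime.ne_top <| by
  obtain ⟨a, b, e⟩ := h.map (Int.castRingHom (𝓞 F))
  rw [Ideal.eq_top_iff_one, ← e]
  exact add_mem (Ideal.mul_mem_left _ _ hx) (Ideal.mul_mem_left _ _ hy)

theorem gd_cop {p : ℕ} (hp : Gd 0 p) : IsCoprime (p : ℤ) 2 :=
  Nat.isCoprime_iff_coprime.2 ((Nat.coprime_primes hp.1 Nat.prime_two).2 hp.2.1)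

theorem prime_odd (A : SRA) (h : Module.finrank ℚ F = 1) {p : ℕ} (hp : Gd 0 p) :
    ∃ w : Pr F 2, ((p : ℤ) : 𝓞 F) ∈ w.1.asIdeal ∧ ord w.1 (zi F p) = 1 ∧
      (∀ v : Pr F 2, v ≠ w → ord v.1 (zi F p) = 0) ∧
      ∀ x : ℤ, qv w.1 (x : F) = qr (x : ZMod p) := by
  obtain ⟨w, ψ, e, h1, h2⟩ := prime_at h hp.1
  have hm : ((p : ℤ) : 𝓞 F) ∈ w.asIdeal := by rw [e, RingHom.mem_ker, map_intCast]; simp
  refine ⟨⟨w, by simpa using not_both (gd_cop hp) hm⟩, hm, h1, fun v hv => ?_, fun x => ?_⟩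
  · exact ord_zi (by exact_mod_cast hp.1.ne_zero) fun hh => hv (Subtype.ext (h2 _ hh))
  · simpa using A.qhom F w p ψ hp.1 e x

/-- the symbol of a unit outside two and an odd prime -/
theorem dy_unit (A : SRA) (h : Module.finrank ℚ F = 1) {p : ℕ} (hp : Gd 0 p) {x : ℤ} (hx : x ≠ 0)
    (hu : ∀ v : Pr F 2, ord v.1 (zi F x) = 0) : dy (zi F x) (zi F p) = qr (x : ZMod p) := by
  obtain ⟨w, -, h1, h2, h3⟩ := prime_odd A h hp
  unfold dy
  rw [real h hx (by exact_mod_cast hp.1.ne_zero), if_neg (by omega), add_zero,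
    finsum_eq_single _ w fun v hv => t00 (hu v) (h2 v hv), t01 (hu w) h1, val_zi hx, h3]

theorem ord_neg_one (v : Sp F) : ord v (zi F (-1)) = 0 :=
  ord_zi (by norm_num) (by simpa using (Ideal.ne_top_iff_one _).1 v.isPrime.ne_top)

theorem ord_two (v : Pr F 2) : ord v.1 (zi F 2) = 0 := ord_zi (by norm_num) (by simpa using v.2)

theorem dy_mm (h : Module.finrank ℚ F = 1) : dy (zi F (-1)) (zi F (-1)) = 1 := by
  unfold dy
  rw [real h (by norm_num) (by norm_num), if_pos (by omega)]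
  simp [t00 (ord_neg_one _) (ord_neg_one _)]

theorem dy_pq (A : SRA) (h : Module.finrank ℚ F = 1) {p q : ℕ} (hp : Gd 0 p) (hq : Gd 0 q)
    (hne : p ≠ q) : dy (zi F p) (zi F q) = lg p q + lg q p := by
  classical
  obtain ⟨w, w0, h1, h2, h3⟩ := prime_odd A h hp
  obtain ⟨w', w0', h1', h2', h3'⟩ := prime_odd A h hq
  have hw : w' ≠ w := fun e => not_both
    (Nat.isCoprime_iff_coprime.2 ((Nat.coprime_primes hp.1 hq.1).2 hne)) w0 (e ▸ w0')
  have hp0 : (p : ℤ) ≠ 0 := by exact_mod_cast hp.1.ne_zero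
  have hq0 : (q : ℤ) ≠ 0 := by exact_mod_cast hq.1.ne_zero
  unfold dy
  rw [real h hp0 hq0, if_neg (by omega), add_zero,
    finsum_eq_sum_of_support_subset (s := {w', w}) _ fun v hv => ?_, Finset.sum_pair hw,
    t01 (h2 _ hw) h1', t10 A h1 (h2' _ hw.symm), val_zi hp0, val_zi hq0, h3, h3']
  · simp [lg]
  · by_contra hn
    simp only [Finset.coe_insert, Finset.coe_singleton, Set.mem_insert_iff, Set.mem_singleton_iff,
      not_or] at hn
    exact hv (t00 (h2 _ hn.2) (h2' _ hn.1))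

theorem dy_mul (A : SRA) {a b : ℤ} (ha : a ≠ 0) (hb : b ≠ 0) (c : Un F) :
    dy (zi F (a * b)) c = dy (zi F a) c + dy (zi F b) c := by rw [zi_mul ha hb, A.add]

theorem dy_mul' (A : SRA) {a b : ℤ} (ha : a ≠ 0) (hb : b ≠ 0) (c : Un F) :
    dy c (zi F (a * b)) = dy c (zi F a) + dy c (zi F b) := by
  rw [A.symm, dy_mul A ha hb, A.symm F c, A.symm F c]

theorem dy_two (A : SRA) (h : Module.finrank ℚ F = 1) (x : ℤ) (hx : x % 2 = 1) :
    dy (zi F x) (zi F 2) = e8 x := by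
  refine indo (fun x => dy (zi F x) (zi F 2) = e8 x) (fun a b ha hb h1 h2 => ?_) ?_
    (fun p hp => ?_) x hx
  · rw [dy_mul A (by omega) (by omega), h1, h2, e8_mul ha hb]
  · rw [A.stb F _ _ (by rw [val_zi (by norm_num), val_zi (by norm_num)]; norm_num)]
    decide
  · rw [A.symm, dy_unit A h hp (by norm_num) ord_two, ← qr_two hp]
    simp

theorem dy_neg (Q : SQR) (A : SRA) (h : Module.finrank ℚ F = 1) (x : ℤ) (hx : x % 2 = 1) :
    dy (zi F x) (zi F (-1)) = e4 x := by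
  refine indo (fun x => dy (zi F x) (zi F (-1)) = e4 x) (fun a b ha hb h1 h2 => ?_) ?_
    (fun p hp => ?_) x hx
  · rw [dy_mul A (by omega) (by omega), h1, h2, e4_mul ha hb]
  · rw [dy_mm h]
    decide
  · rw [A.symm, dy_unit A h hp (by norm_num) fun v => ord_neg_one v.1, e4_nat, ← Q.neg p hp]
    simp

theorem dy_prime (Q : SQR) (A : SRA) (h : Module.finrank ℚ F = 1) {q : ℕ} (hq : Gd 0 q) (x : ℤ)
    (hx : x % 2 = 1) : dy (zi F x) (zi F q) = e4 x * e4 q := by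
  have hq0 : (q : ℤ) ≠ 0 := by exact_mod_cast hq.1.ne_zero
  have hq1 : (q : ℤ) % 2 = 1 := by
    have := hq.1.eq_two_or_odd.resolve_left hq.2.1
    omega
  refine indo (fun x => dy (zi F x) (zi F q) = e4 x * e4 q) (fun a b ha hb h1 h2 => ?_) ?_
    (fun p hp => ?_) x hx
  · rw [dy_mul A (by omega) (by omega), h1, h2, e4_mul ha hb, add_mul]
  · rw [A.symm, dy_neg Q A h _ hq1, show e4 (-1) = 1 by decide, one_mul]
  · by_cases e : p = q
    · subst e
      have h1 := A.neg F (zi F p) (zi F (-1 * p))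
        (by rw [val_zi hq0, val_zi (by omega)]; push_cast; ring)
      rw [dy_mul' A (by norm_num) hq0, dy_neg Q A h _ hq1] at h1
      rw [f2_mul, f2_eq h1]
    · rw [dy_pq A h hp hq e, Q.rcp p q hp hq e, e4_nat, e4_nat]

theorem dy_int (Q : SQR) (A : SRA) (h : Module.finrank ℚ F = 1) {x : ℤ} (hx : x % 8 = 1) (y : ℤ)
    (hy : y ≠ 0) : dy (zi F x) (zi F y) = 0 := by
  have h2 : x % 2 = 1 := by omega
  have h4 : e4 x = 0 := if_neg (by omega)
  have h8 : e8 x = 0 := if_neg (by omega)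
  refine ind (fun y => dy (zi F x) (zi F y) = 0) (fun a b ha hb h1 h2 => ?_) ?_
    (fun p hp => ?_) y hy
  · rw [dy_mul' A ha hb, h1, h2, add_zero]
  · rw [dy_neg Q A h x h2, h4]
  · by_cases e : p = 2
    · subst e
      exact (dy_two A h x h2).trans h8
    · rw [dy_prime Q A h ⟨hp, e, Nat.zero_le _⟩ x h2, h4, zero_mul]

theorem exists_zi (h : Module.finrank ℚ F = 1) (b : Un F) :
    ∃ m n : ℤ, m ≠ 0 ∧ n ≠ 0 ∧ b + zi F n = zi F m := by
  obtain ⟨x, hx, y, hy, e⟩ := exists_mkI b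
  obtain ⟨m, rfl⟩ := surj h x
  obtain ⟨n, rfl⟩ := surj h y
  have hm : m ≠ 0 := by rintro rfl; simp at hx
  have hn : n ≠ 0 := by rintro rfl; simp at hy
  refine ⟨m, n, hm, hn, Un.ext ?_⟩
  have : (n : F) ≠ 0 := Int.cast_ne_zero.2 hn
  rw [e, Un.val_add, Un.val_sub, val_zi hm, val_zi hn, val_mkI, val_mkI]
  simp [this]

theorem exists_ray (h : Module.finrank ℚ F = 1) {a : Un F} (ha : a ∈ Ray F 2 3) :
    ∃ (x : ℤ) (c : Un F), x % 8 = 1 ∧ a + c + c = zi F x := by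
  obtain ⟨y, ⟨s, hs, hy⟩, e⟩ := (mem_Ray_iff (by norm_num) (by norm_num)).1 ha
  obtain ⟨k, hk⟩ := surj h ⟨_, hy⟩
  have hk' : (s : F) * y = k := by simpa using congrArg (fun z : 𝓞 F => (z : F)) hk
  have h1 : s % 2 = 1 := Nat.odd_iff.1 (Nat.coprime_two_right.1 hs)
  have h2 : ((s + 8 * k) * s : ℤ) % 8 = 1 := by
    have h3 : (s : ℤ) % 8 = 1 ∨ (s : ℤ) % 8 = 3 ∨ (s : ℤ) % 8 = 5 ∨ (s : ℤ) % 8 = 7 := by omega
    rw [Int.mul_emod, Int.add_mul_emod_self_left]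
    rcases h3 with h3 | h3 | h3 | h3 <;> rw [h3] <;> decide
  refine ⟨(s + 8 * k) * s, zi F s, h2, Un.ext ?_⟩
  rw [Un.val_add, Un.val_add, e, val_zi (by omega), val_zi (by omega)]
  push_cast
  rw [← hk']
  ring

end RC

theorem rowRC : OfRC := by
  intro Q A F _ _ h a ha b
  obtain ⟨x, c, hx, e⟩ := RC.exists_ray h ha
  obtain ⟨m, n, hm, hn, e'⟩ := RC.exists_zi h b
  have h1 : ∀ b : Un F, dy (RC.zi F x) b = dy a b := fun b => by
    rw [← e, A.add, A.add, add_assoc, RC.f2_add, add_zero]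
  have h2 := RC.dy_int Q A h hx m hm
  have h3 := RC.dy_int Q A h hx n hn
  rw [← e', A.symm, A.add, A.symm F (RC.zi F n), h3, add_zero, A.symm, h1] at h2
  exact h2

end Pool.Agent.MP_1246c0_nt.H12
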